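import Mathlib

set_option autoImplicit false

namespace Pool.Agent.Results.MP_5bed1d_al.Join

open Set

/-- Implication zroupoids `⟨A; →, 0⟩`, with `u' = u → 0`. -/
structure IZ where
  A : Type
  imp : A → A → A
  o : A
  ax1 : ∀ x y z, imp (imp x y) z = imp (imp (imp (imp z o) x) (imp (imp y z) o)) o
  ax2 : imp (imp o o) o = o

/-- Terms of type `(2,0)`. -/
inductive Tm
  | var (n : ℕ)
  | zero
  | imp (s t : Tm)

/-- Value of a term. -/
def Tm.eval (M : IZ) (v : ℕ → M.A) : Tm → M.A
  | .var n => v n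
  | .zero => M.o
  | .imp s t => M.imp (s.eval M v) (t.eval M v)

/-- The identity `e.1 ≈ e.2` holds in `M`. -/
def Sat (M : IZ) (e : Tm × Tm) : Prop := ∀ v, e.1.eval M v = e.2.eval M v

/-- Varieties of implication zroupoids: classes defined by identities. -/
def IsVariety (X : Set IZ) : Prop := ∃ E : Set (Tm × Tm), X = {M | ∀ e ∈ E, Sat M e}

/-- The variety generated by a class. -/
def gen (K : Set IZ) : Set IZ := {M | ∀ e, (∀ N ∈ K, Sat N e) → Sat M e}

/-- The variety `ZM` defined by `x → y ≈ 0`. -/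
def ZM : Set IZ := {M | ∀ x y, M.imp x y = M.o}

lemma inv (M : IZ) (x y z : M.A) : M.imp (M.imp (M.imp (M.imp x y) z) M.o) M.o = M.imp (M.imp x y) z := by
  have h := M.ax1
  have h0 := M.ax2
  grind

lemma key {X : Set IZ} (hX : IsVariety X) (h : ¬ ZM ⊆ X) :
    ∀ N ∈ X, Sat N (.imp (.imp (.var 0) .zero) .zero, .var 0) := by
  obtain ⟨E, rfl⟩ := hX
  intro N hN v
  have main : ∀ n t, t ≠ .var n → Sat N (.var n, t) → N.imp (N.imp (v 0) N.o) N.o = v 0 := by
    intro n t ht hs
    cases t with
    | var m =>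
      have := hs fun k => if k = n then N.imp (N.imp (v 0) N.o) N.o else v 0
      simpa [Tm.eval, show m ≠ n from fun c => ht (c ▸ rfl)] using this
    | zero => exact (hs fun _ => _).trans (hs fun _ => v 0).symm
    | imp s t =>
      have h1 : ∀ a, ∃ b c, a = N.imp b c := fun a => ⟨_, _, hs fun _ => a⟩
      obtain ⟨b, c, e⟩ := h1 (v 0)
      obtain ⟨b', c', rfl⟩ := h1 b
      rw [e, inv]
  by_contra c
  refine h fun M hM ⟨s, t⟩ he w => ?_
  have z : ∀ u : Tm, (∀ n, u ≠ .var n) → u.eval M w = M.o := fun u hu => by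
    cases u with
    | var n => exact (hu n rfl).elim
    | zero => rfl
    | imp s t => exact hM _ _
  by_cases e : s = t
  · exact congrArg _ e
  exact (z s fun n e' => c (main n t (fun c => e (e'.trans c.symm)) (e' ▸ hN _ he))).trans
    (z t fun n e' => c (main n s (fun c => e (c.trans e'.symm)) fun u => (e' ▸ hN _ he u :).symm)).symm

/-- If neither of two varieties of implication zroupoids contains `ZM`, neither does their join. -/
theorem result (X Y : Set IZ) (hX : IsVariety X) (hY : IsVariety Y) (h1 : ¬ ZM ⊆ X) (h2 : ¬ ZM ⊆ Y) :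
    ¬ ZM ⊆ gen (X ∪ Y) := fun h => by
  have := h (a := ⟨Bool, fun _ _ => false, false, fun _ _ _ => rfl, rfl⟩) (fun _ _ => rfl) _
    (fun N hN => hN.elim (key hX h1 N) (key hY h2 N)) fun _ => true
  simp [Tm.eval] at this

end Pool.Agent.Results.MP_5bed1d_al.Join
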